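import Mathlib
import Pool.Graph.R_pool_sql_team_seeded_620a6dc7.H253_GQ.Core

/-!
Linear algebra of generalized quadrangles of order `(s, s^2 - s - 1)`, `s ≥ 3`. The collinearity
matrix is `A`, with `GQMat A s (s ^ 2 - s)`. This follows the library's file for `s = 4`.
-/

open Matrix Finset

namespace Pool.Agent.H58.GQ

open Pool.Agent.H253_GQ

variable {V : Type*} [Fintype V] [DecidableEq V]

/-- The orthogonal projection onto the eigenspace for the least eigenvalue `-(s^2-s)`. -/
noncomputable def W (A : V → V → ℝ) (s : ℝ) : Matrix V V ℝ :=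
  Matrix.of fun x y => ((s - 1) * (1 : Matrix V V ℝ) x y - A x y + 1 / (s + 1)) / (s ^ 2 - 1)

/-- The diagonal weights. -/
noncomputable def b (A : V → V → ℝ) (s : ℝ) (p : V) : V → ℝ :=
  fun y => 1 - (s ^ 2 - 1) / s * A p y
    + (s ^ 2 - 1) * (s ^ 2 - 2 * s - 1) / s ^ 2 * (1 : Matrix V V ℝ) p y

/-- The projection onto the vectors of the eigenspace vanishing on `p` and its neighbours. -/
noncomputable def P (A : V → V → ℝ) (s : ℝ) (p : V) : Matrix V V ℝ :=
  W A s * Matrix.diagonal (b A s p) * W A s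

/-- The line vector of an edge. -/
noncomputable def e (A : V → V → ℝ) (p q : V) : V → ℝ :=
  fun w => A p w * A q w + (1 : Matrix V V ℝ) p w + (1 : Matrix V V ℝ) q w

section
variable {A : V → V → ℝ} {s : ℝ}

theorem s_facts (hs : 3 ≤ s) : s ≠ 0 ∧ s + 1 ≠ 0 ∧ s - 1 ≠ 0 ∧ s ^ 2 - 1 ≠ 0 := by
  refine ⟨by linarith, by linarith, by linarith, ?_⟩
  nlinarith

omit [Fintype V] in
theorem W_apply (x y : V) :
    W A s x y = ((s - 1) * (1 : Matrix V V ℝ) x y - A x y + 1 / (s + 1)) / (s ^ 2 - 1) := rfl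

theorem W_symm (h : GQMat A s (s ^ 2 - s)) (x y : V) : W A s x y = W A s y x := by
  rw [W_apply, W_apply, h.symm x y, one_symm x y]

theorem W_transpose (h : GQMat A s (s ^ 2 - s)) : (W A s)ᵀ = W A s := by
  ext x y
  rw [Matrix.transpose_apply, W_symm h]

theorem P_apply (p y z : V) :
    P A s p y z = ∑ w, W A s y w * b A s p w * W A s w z := by
  rw [P, Matrix.mul_apply]
  simp_rw [Matrix.mul_diagonal]

theorem P_transpose (h : GQMat A s (s ^ 2 - s)) (p : V) : (P A s p)ᵀ = P A s p := by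
  simp [P, Matrix.transpose_mul, W_transpose h, Matrix.mul_assoc]

theorem P_symm (h : GQMat A s (s ^ 2 - s)) (p y z : V) : P A s p y z = P A s p z y := by
  conv_lhs => rw [← P_transpose h p, Matrix.transpose_apply]

/-- The number of points. -/
theorem card_eq (h : GQMat A s (s ^ 2 - s)) (hs : 3 ≤ s) (x : V) :
    (Fintype.card V : ℝ) = (s ^ 2 - 1) ^ 2 := by
  have h1 : ∑ z, ∑ y, A x y * A y z = (s * (s ^ 2 - s)) * (s * (s ^ 2 - s)) := by
    rw [Finset.sum_comm]
    simp_rw [← Finset.mul_sum, h.deg, ← Finset.sum_mul, h.deg]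
  have h2 : ∑ z, ∑ y, A x y * A y z
      = (s ^ 2 - s) * Fintype.card V + (s - 1) * (s ^ 2 - s)
        + (s - 1 - (s ^ 2 - s)) * (s * (s ^ 2 - s)) := by
    simp_rw [h.sq, Finset.sum_add_distrib, ← Finset.mul_sum, sum_one, h.deg]
    simp
    ring
  have hm0 : s ^ 2 - s ≠ 0 := by nlinarith
  have h3 : (s ^ 2 - s) * (Fintype.card V : ℝ) = (s ^ 2 - s) * (s ^ 2 - 1) ^ 2 := by
    linear_combination h1 - h2
  exact mul_left_cancel₀ hm0 h3

theorem W_sum (h : GQMat A s (s ^ 2 - s)) (hs : 3 ≤ s) (x : V) : ∑ y, W A s x y = 0 := by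
  obtain ⟨hs0, hs1, hs2, hs3⟩ := s_facts hs
  simp_rw [W_apply, ← Finset.sum_div, Finset.sum_add_distrib, Finset.sum_sub_distrib,
    ← Finset.mul_sum, sum_one, h.deg]
  simp only [Finset.sum_const, Finset.card_univ, nsmul_eq_mul]
  rw [card_eq h hs x]
  field_simp
  ring

theorem W_mul_A (h : GQMat A s (s ^ 2 - s)) (hs : 3 ≤ s) (x z : V) :
    ∑ y, W A s x y * A y z = -(s ^ 2 - s) * W A s x z := by
  obtain ⟨hs0, hs1, hs2, hs3⟩ := s_facts hs
  have h0 : ∀ y, W A s x y * A y z = ((s - 1) * ((1 : Matrix V V ℝ) x y * A y z)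
      - A x y * A y z + 1 / (s + 1) * A z y) / (s ^ 2 - 1) := by
    intro y
    rw [W_apply, h.symm z y]
    ring
  simp_rw [h0, ← Finset.sum_div, Finset.sum_add_distrib, Finset.sum_sub_distrib,
    ← Finset.mul_sum, sum_one_mul, h.deg, h.sq, W_apply]
  field_simp
  ring

theorem W_mul_W (h : GQMat A s (s ^ 2 - s)) (hs : 3 ≤ s) : W A s * W A s = W A s := by
  obtain ⟨hs0, hs1, hs2, hs3⟩ := s_facts hs
  ext x z
  rw [Matrix.mul_apply]
  have h0 : ∀ y, W A s x y * W A s y z = ((s - 1) * ((1 : Matrix V V ℝ) y z * W A s x y)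
      - W A s x y * A y z + 1 / (s + 1) * W A s x y) / (s ^ 2 - 1) := by
    intro y
    rw [W_apply y z]
    ring
  simp_rw [h0, ← Finset.sum_div, Finset.sum_add_distrib, Finset.sum_sub_distrib,
    ← Finset.mul_sum, sum_one_mul', W_mul_A h hs, W_sum h hs]
  field_simp
  ring

theorem ne_of_adj (h : GQMat A s (s ^ 2 - s)) {p q : V} (hpq : A p q = 1) : p ≠ q := by
  rintro rfl
  rw [h.diag] at hpq
  norm_num at hpq

theorem e_zero_one (h : GQMat A s (s ^ 2 - s)) {p q : V} (hpq : A p q = 1) (w : V) :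
    e A p q w = 0 ∨ e A p q w = 1 := by
  have hne := ne_of_adj h hpq
  unfold e
  by_cases h1 : p = w
  · subst h1
    right
    rw [h.diag, Matrix.one_apply_eq, Matrix.one_apply_ne hne.symm]; ring
  · by_cases h2 : q = w
    · subst h2
      right
      rw [h.diag, Matrix.one_apply_eq, Matrix.one_apply_ne hne]; ring
    · rw [Matrix.one_apply_ne h1, Matrix.one_apply_ne h2]
      rcases h.zero_one p w with h3 | h3
      · left; rw [h3]; ring
      · rcases h.zero_one q w with h4 | h4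
        · left; rw [h4]; ring
        · right; rw [h3, h4]; ring

theorem e_left (h : GQMat A s (s ^ 2 - s)) {p q : V} (hpq : A p q = 1) : e A p q p = 1 := by
  rw [e, h.diag, Matrix.one_apply_eq, Matrix.one_apply_ne (ne_of_adj h hpq).symm]; ring

theorem e_right (h : GQMat A s (s ^ 2 - s)) {p q : V} (hpq : A p q = 1) : e A p q q = 1 := by
  rw [e, h.diag, Matrix.one_apply_eq, Matrix.one_apply_ne (ne_of_adj h hpq)]; ring

theorem e_sum (h : GQMat A s (s ^ 2 - s)) {p q : V} (hpq : A p q = 1) :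
    ∑ w, e A p q w = s + 1 := by
  unfold e
  have h0 : ∀ w, A p w * A q w = A p w * A w q := fun w => by rw [h.symm w q]
  simp_rw [h0, Finset.sum_add_distrib, sum_one, h.sq, hpq,
    Matrix.one_apply_ne (ne_of_adj h hpq)]
  ring

theorem e_line (h : GQMat A s (s ^ 2 - s)) {p q : V} (hpq : A p q = 1) (z : V) :
    ∑ w, A z w * e A p q w = 1 + (s - 1) * e A p q z := by
  have := h.line p q hpq z
  unfold e
  rw [this]

theorem e_clique (h : GQMat A s (s ^ 2 - s)) {p q : V} (hpq : A p q = 1) {y : V}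
    (hy : e A p q y = 1)
    (z : V) : A y z * e A p q z = e A p q z - (1 : Matrix V V ℝ) y z := by
  have hnn : ∀ w ∈ Finset.univ, 0 ≤ e A p q w - (1 : Matrix V V ℝ) y w - A y w * e A p q w := by
    intro w _
    by_cases hw : y = w
    · subst hw
      rw [hy, Matrix.one_apply_eq, h.diag]; norm_num
    · rw [Matrix.one_apply_ne hw]
      rcases h.zero_one y w with h0 | h0 <;> rcases e_zero_one h hpq w with h1 | h1 <;>
        rw [h0, h1] <;> norm_num
  have hsum : ∑ w, (e A p q w - (1 : Matrix V V ℝ) y w - A y w * e A p q w) = 0 := by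
    simp_rw [Finset.sum_sub_distrib, e_sum h hpq, sum_one, e_line h hpq, hy]
    ring
  have := (Finset.sum_eq_zero_iff_of_nonneg hnn).1 hsum z (Finset.mem_univ z)
  linarith

/-- The line vector of an edge is annihilated by `W`. -/
theorem W_line (h : GQMat A s (s ^ 2 - s)) (hs : 3 ≤ s) {p q : V} (hpq : A p q = 1) (z : V) :
    ∑ w, W A s z w * e A p q w = 0 := by
  obtain ⟨hs0, hs1, hs2, hs3⟩ := s_facts hs
  have h0 : ∀ w, W A s z w * e A p q w
      = ((s - 1) * ((1 : Matrix V V ℝ) z w * e A p q w)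
      - A z w * e A p q w + 1 / (s + 1) * e A p q w) / (s ^ 2 - 1) := by
    intro w
    rw [W_apply]
    ring
  simp_rw [h0, ← Finset.sum_div, Finset.sum_add_distrib, Finset.sum_sub_distrib,
    ← Finset.mul_sum, sum_one_mul, e_line h hpq, e_sum h hpq]
  field_simp
  ring

theorem P_self (h : GQMat A s (s ^ 2 - s)) (hs : 3 ≤ s) (p z : V) : P A s p z p = 0 := by
  obtain ⟨hs0, hs1, hs2, hs3⟩ := s_facts hs
  have key : ∀ w, W A s z w * b A s p w * W A s w p
      = ((s ^ 2 - s - 2) * (W A s z w * A w p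
        + (s ^ 2 - s) * ((1 : Matrix V V ℝ) w p * W A s z w)) + W A s z w)
          / ((s + 1) * (s ^ 2 - 1)) := by
    intro w
    rw [W_apply w p, b, h.symm p w, one_symm p w]
    by_cases hw : w = p
    · subst hw
      rw [h.diag, Matrix.one_apply_eq]
      field_simp
      ring
    · rw [Matrix.one_apply_ne hw]
      rcases h.zero_one w p with h0 | h0 <;> rw [h0] <;> field_simp <;> ring
  rw [P_apply]
  simp_rw [key, ← Finset.sum_div, Finset.sum_add_distrib, ← Finset.mul_sum,
    Finset.sum_add_distrib, ← Finset.mul_sum, sum_one_mul', W_mul_A h hs, W_sum h hs]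
  ring

theorem P_adj (h : GQMat A s (s ^ 2 - s)) (hs : 3 ≤ s) {p q : V} (hpq : A p q = 1) (z : V) :
    P A s p z q = 0 := by
  obtain ⟨hs0, hs1, hs2, hs3⟩ := s_facts hs
  have hne := ne_of_adj h hpq
  have key : ∀ w, W A s z w * b A s p w * W A s w q
      = (W A s z w - (s ^ 2 - 1) / s * (W A s z w * A w p
          + (s ^ 2 - s) * ((1 : Matrix V V ℝ) w p * W A s z w))
        - (s + 1) * (W A s z w * A w q + (s ^ 2 - s) * ((1 : Matrix V V ℝ) w q * W A s z w))
        + (s ^ 2 - 1) * (s + 1) / s * (W A s z w * e A p q w)) / ((s + 1) * (s ^ 2 - 1)) := by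
    intro w
    rw [W_apply w q, b, e, h.symm w p, one_symm p w, h.symm w q, one_symm q w]
    by_cases hw : w = p
    · subst hw
      rw [h.diag, Matrix.one_apply_eq, Matrix.one_apply_ne hne, h.symm q w, hpq]
      field_simp
      ring
    · rw [Matrix.one_apply_ne hw]
      by_cases hw' : w = q
      · subst hw'
        rw [h.diag, Matrix.one_apply_eq, hpq]
        field_simp
        ring
      · rw [Matrix.one_apply_ne hw']
        rcases h.zero_one p w with h0 | h0 <;> rcases h.zero_one q w with h0' | h0' <;>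
          rw [h0, h0'] <;> field_simp <;> ring
  rw [P_apply]
  simp_rw [key, ← Finset.sum_div, Finset.sum_add_distrib, Finset.sum_sub_distrib,
    ← Finset.mul_sum, Finset.sum_add_distrib, ← Finset.mul_sum, W_line h hs hpq,
    sum_one_mul', W_mul_A h hs, W_sum h hs]
  ring

theorem P_zero_right (h : GQMat A s (s ^ 2 - s)) (hs : 3 ≤ s) {p q : V}
    (hq : q = p ∨ A p q = 1) (z : V) : P A s p z q = 0 := by
  rcases hq with rfl | hq
  · exact P_self h hs _ z
  · exact P_adj h hs hq z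

theorem P_zero_left (h : GQMat A s (s ^ 2 - s)) (hs : 3 ≤ s) {p q : V}
    (hq : q = p ∨ A p q = 1) (z : V) : P A s p q z = 0 := by
  rw [P_symm h, P_zero_right h hs hq]

theorem g_cases (h : GQMat A s (s ^ 2 - s)) (p y : V) :
    (gf A p y = 0 ∧ (y = p ∨ A p y = 1)) ∨ (gf A p y = 1 ∧ p ≠ y ∧ A p y = 0) :=
  gf_cases h p y

theorem diag_mul_P (h : GQMat A s (s ^ 2 - s)) (hs : 3 ≤ s) (p : V) :
    Matrix.diagonal (b A s p) * P A s p = P A s p := by
  ext y z
  rw [Matrix.diagonal_mul]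
  rcases g_cases h p y with ⟨_, h0⟩ | ⟨_, h0, h1⟩
  · rw [P_zero_left h hs h0]; ring
  · rw [b, h1, Matrix.one_apply_ne h0]; ring

theorem W_mul_P (h : GQMat A s (s ^ 2 - s)) (hs : 3 ≤ s) (p : V) :
    W A s * P A s p = P A s p := by
  rw [P, ← Matrix.mul_assoc, ← Matrix.mul_assoc, W_mul_W h hs]

theorem P_mul_W (h : GQMat A s (s ^ 2 - s)) (hs : 3 ≤ s) (p : V) :
    P A s p * W A s = P A s p := by
  rw [P, Matrix.mul_assoc, W_mul_W h hs]

theorem P_mul_P (h : GQMat A s (s ^ 2 - s)) (hs : 3 ≤ s) (p : V) :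
    P A s p * P A s p = P A s p := by
  calc P A s p * P A s p
      = W A s * (Matrix.diagonal (b A s p) * (W A s * P A s p)) := by
        conv_lhs => arg 1; rw [P]
        simp only [Matrix.mul_assoc]
    _ = P A s p := by rw [W_mul_P h hs, diag_mul_P h hs, W_mul_P h hs]

theorem P_entry (h : GQMat A s (s ^ 2 - s)) (hs : 3 ≤ s) {p y z : V}
    (hy : p ≠ y) (hy' : A p y = 0) (hz : p ≠ z) (hz' : A p z = 0) :
    P A s p y z = (s ^ 2 * (s - 1) * (1 : Matrix V V ℝ) y z - s ^ 2 * A y z + (s ^ 2 - 1)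
      - s * ∑ w, A p w * (A y w * A z w)) / (s ^ 2 * (s ^ 2 - 1)) := by
  obtain ⟨hs0, hs1, hs2, hs3⟩ := s_facts hs
  have key : ∀ w, W A s y w * b A s p w * W A s w z
      = W A s y w * W A s w z - (s ^ 2 - 1) / s * ((1 / (s + 1) ^ 2 * A p w
        - 1 / (s + 1) * (A p w * A w y)
        - 1 / (s + 1) * (A p w * A w z) + A p w * (A y w * A z w)) / (s ^ 2 - 1) ^ 2)
        + (s ^ 2 - 1) * (s ^ 2 - 2 * s - 1) / s ^ 2
          * ((1 : Matrix V V ℝ) p w * (W A s y w * W A s w z)) := by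
    intro w
    rw [b]
    have e : A p w * (W A s y w * W A s w z)
        = (1 / (s + 1) ^ 2 * A p w - 1 / (s + 1) * (A p w * A w y)
        - 1 / (s + 1) * (A p w * A w z) + A p w * (A y w * A z w)) / (s ^ 2 - 1) ^ 2 := by
      rcases h.zero_one p w with h0 | h0
      · rw [h0]; ring
      · have hyw : y ≠ w := by
          rintro rfl
          rw [hy'] at h0
          norm_num at h0
        have hwz : w ≠ z := by
          rintro rfl
          rw [hz'] at h0
          norm_num at h0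
        rw [W_apply, W_apply, Matrix.one_apply_ne hyw, Matrix.one_apply_ne hwz, h0,
          h.symm y w, h.symm z w]
        field_simp
        ring
    rw [← e]
    ring
  rw [P_apply]
  simp_rw [key, Finset.sum_add_distrib, Finset.sum_sub_distrib, ← Finset.mul_sum,
    ← Finset.sum_div, Finset.sum_add_distrib, Finset.sum_sub_distrib, ← Finset.mul_sum,
    sum_one_mul, h.sq, h.deg]
  rw [← Matrix.mul_apply, W_mul_W h hs, hy', hz', Matrix.one_apply_ne hy,
    Matrix.one_apply_ne hz, W_apply y p, W_apply p z, W_apply y z, h.symm y p, hy', hz',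
    Matrix.one_apply_ne hz, Matrix.one_apply_ne hy.symm]
  field_simp
  ring

/-- Diagonal entries. -/
theorem P_diag (h : GQMat A s (s ^ 2 - s)) (hs : 3 ≤ s) (p y : V) :
    P A s p y y = gf A p y / s ^ 2 := by
  obtain ⟨hs0, hs1, hs2, hs3⟩ := s_facts hs
  rcases g_cases h p y with ⟨hg, h0⟩ | ⟨hg, hy, hy'⟩
  · rw [P_zero_left h hs h0, hg]; ring
  · rw [hg, P_entry h hs hy hy' hy hy']
    have e : ∑ w, A p w * (A y w * A y w) = s ^ 2 - s := by
      have : ∀ w, A p w * (A y w * A y w) = A p w * A w y := by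
        intro w
        rw [h.symm w y]
        rcases h.zero_one y w with h0 | h0 <;> rw [h0] <;> ring
      simp_rw [this, h.sq]
      rw [hy', Matrix.one_apply_ne hy]
      ring
    rw [e, h.diag, Matrix.one_apply_eq]
    field_simp
    ring

/-- A point outside a line is adjacent to exactly one point of the line. -/
theorem triple_edge (h : GQMat A s (s ^ 2 - s)) {p y z : V} (hy : p ≠ y) (hy' : A p y = 0)
    (hz : p ≠ z)
    (hz' : A p z = 0) (hyz : A y z = 1) : ∑ w, A p w * (A y w * A z w) = 1 := by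
  have h3 := h.line y z hyz p
  simp_rw [mul_add, Finset.sum_add_distrib] at h3
  have h4 : ∑ w, A p w * (1 : Matrix V V ℝ) y w = A p y := by
    simp_rw [mul_comm (A p _)]
    exact sum_one_mul y _
  have h5 : ∑ w, A p w * (1 : Matrix V V ℝ) z w = A p z := by
    simp_rw [mul_comm (A p _)]
    exact sum_one_mul z _
  rw [h4, h5, hy', hz', h.symm y p, hy', Matrix.one_apply_ne hy.symm,
    Matrix.one_apply_ne hz.symm] at h3
  linarith

/-- Entries at adjacent pairs. -/
theorem P_edge (h : GQMat A s (s ^ 2 - s)) (hs : 3 ≤ s) (p : V) {y z : V}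
    (hyz : A y z = 1) : P A s p y z = - (gf A p y * gf A p z / (s ^ 2 * (s - 1))) := by
  obtain ⟨hs0, hs1, hs2, hs3⟩ := s_facts hs
  rcases g_cases h p y with ⟨hg, h0⟩ | ⟨hg, hy, hy'⟩
  · rw [P_zero_left h hs h0, hg]; ring
  rcases g_cases h p z with ⟨hg', h0⟩ | ⟨hg', hz, hz'⟩
  · rw [P_zero_right h hs h0, hg']; ring
  rw [hg, hg', P_entry h hs hy hy' hz hz', triple_edge h hy hy' hz hz' hyz, hyz,
    Matrix.one_apply_ne (ne_of_adj h hyz)]
  field_simp
  ring

theorem P_P_P (h : GQMat A s (s ^ 2 - s)) (hs : 3 ≤ s) (p x : V) :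
    P A s p * P A s x * P A s p = P A s p * Matrix.diagonal (b A s x) * P A s p := by
  calc P A s p * P A s x * P A s p
      = (P A s p * W A s) * Matrix.diagonal (b A s x) * (W A s * P A s p) := by
        conv_lhs => arg 1; arg 2; rw [P]
        simp only [Matrix.mul_assoc]
    _ = _ := by rw [P_mul_W h hs, W_mul_P h hs]

theorem trace_P_P (h : GQMat A s (s ^ 2 - s)) (hs : 3 ≤ s) (p x : V) :
    (P A s p * P A s x).trace = 1 / s ^ 2 * ∑ y, gf A p y * b A s x y := by
  have h1 : (P A s p * P A s x).trace = (P A s p * Matrix.diagonal (b A s x)).trace := by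
    calc (P A s p * P A s x).trace = (P A s p * (P A s p * P A s x)).trace := by
          rw [← Matrix.mul_assoc, P_mul_P h hs]
      _ = (P A s p * P A s x * P A s p).trace := by rw [Matrix.trace_mul_comm]
      _ = (P A s p * (P A s p * Matrix.diagonal (b A s x))).trace := by
          rw [P_P_P h hs, Matrix.trace_mul_comm]
      _ = _ := by rw [← Matrix.mul_assoc, P_mul_P h hs]
  rw [h1, Matrix.trace, Finset.mul_sum]
  refine Finset.sum_congr rfl fun y _ => ?_
  rw [Matrix.diag_apply, Matrix.mul_diagonal, P_diag h hs]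
  ring

theorem sum_g (h : GQMat A s (s ^ 2 - s)) (hs : 3 ≤ s) (p : V) :
    ∑ y, gf A p y = s ^ 2 * (s ^ 2 - s - 1) := by
  simp_rw [gf, Finset.sum_sub_distrib, sum_one, h.deg]
  simp only [Finset.sum_const, Finset.card_univ, nsmul_eq_mul]
  rw [card_eq h hs p]
  ring

theorem trace_P (h : GQMat A s (s ^ 2 - s)) (hs : 3 ≤ s) (p : V) :
    (P A s p).trace = s ^ 2 - s - 1 := by
  obtain ⟨hs0, hs1, hs2, hs3⟩ := s_facts hs
  rw [Matrix.trace]
  simp_rw [Matrix.diag_apply, P_diag h hs, ← Finset.sum_div, sum_g h hs]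
  field_simp

theorem trace_adj (h : GQMat A s (s ^ 2 - s)) (hs : 3 ≤ s) {p q : V} (hpq : A p q = 1) :
    (P A s p * P A s q).trace = (s ^ 2 - s - 1) / s ^ 2 := by
  obtain ⟨hs0, hs1, hs2, hs3⟩ := s_facts hs
  have key : ∀ y, gf A p y * b A s q y = 1 - (s ^ 2 - 1) / s * A q y
      + (s ^ 2 - 1) * (s ^ 2 - 2 * s - 1) / s ^ 2 * (1 : Matrix V V ℝ) q y
      - ((1 : Matrix V V ℝ) p y * b A s q y)
      - (A p y - (s ^ 2 - 1) / s * (A p y * A y q)
        + (s ^ 2 - 1) * (s ^ 2 - 2 * s - 1) / s ^ 2 * ((1 : Matrix V V ℝ) q y * A p y)) := by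
    intro y
    rw [gf, b, h.symm y q]
    ring
  rw [trace_P_P h hs]
  simp_rw [key, Finset.sum_sub_distrib, Finset.sum_add_distrib, Finset.sum_sub_distrib,
    ← Finset.mul_sum, sum_one_mul, h.deg, h.sq, sum_one]
  simp only [Finset.sum_const, Finset.card_univ, nsmul_eq_mul]
  rw [card_eq h hs q, b, h.symm q p, hpq, Matrix.one_apply_ne (ne_of_adj h hpq),
    Matrix.one_apply_ne (ne_of_adj h hpq).symm]
  field_simp
  ring

end

end Pool.Agent.H58.GQ
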