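import Mathlib
import Pool.Agent.H58.GQ.C1

/-!
Order `(s, s^2 - s - 1)`, second part: for adjacent `p`, `q` the projections satisfy
`P q * P p * P q = (1/s^2) P q`.
-/

open Matrix Finset

namespace Pool.Agent.H58.GQ

open Pool.Agent.H253_GQ

variable {V : Type*} [Fintype V] [DecidableEq V] {A : V → V → ℝ} {s : ℝ}

/-- The projection onto the eigenvectors vanishing on the line of an edge. -/
noncomputable def Pi (A : V → V → ℝ) (s : ℝ) (p q : V) : Matrix V V ℝ :=
  W A s - ((s ^ 2 - 1) / s : ℝ) • (W A s * Matrix.diagonal (e A p q) * W A s)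

/-- `W D W D W = (s/(s^2-1)) W D W` for the diagonal matrix `D` of a line. -/
theorem WDWDW (h : GQMat A s (s ^ 2 - s)) (hs : 3 ≤ s) {p q : V} (hpq : A p q = 1) :
    Matrix.diagonal (e A p q) * W A s * Matrix.diagonal (e A p q) * W A s
      = (s / (s ^ 2 - 1) : ℝ) • (Matrix.diagonal (e A p q) * W A s) := by
  obtain ⟨hs0, hs1, hs2, hs3⟩ := s_facts hs
  ext y z
  rw [Matrix.mul_apply, Matrix.smul_apply, Matrix.diagonal_mul, smul_eq_mul]
  simp_rw [Matrix.mul_diagonal, Matrix.diagonal_mul]
  rcases e_zero_one h hpq y with hy | hy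
  · rw [hy]; simp
  · rw [hy]
    have key : ∀ w, 1 * W A s y w * e A p q w * W A s w z
        = ((s - 1) * ((1 : Matrix V V ℝ) y w * (e A p q w * W A s w z))
          - (e A p q w * W A s w z - (1 : Matrix V V ℝ) y w * W A s w z)
          + 1 / (s + 1) * (e A p q w * W A s w z)) / (s ^ 2 - 1) := by
      intro w
      have h1 : A y w * e A p q w * W A s w z
          = e A p q w * W A s w z - (1 : Matrix V V ℝ) y w * W A s w z := by
        rw [e_clique h hpq hy w]; ring
      rw [← h1, W_apply y w]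
      ring
    have h2 : ∑ w, e A p q w * W A s w z = 0 := by
      rw [← W_line h hs hpq z]
      exact Finset.sum_congr rfl fun w _ => by rw [W_symm h w z]; ring
    simp_rw [key, ← Finset.sum_div, Finset.sum_add_distrib, Finset.sum_sub_distrib,
      ← Finset.mul_sum, sum_one_mul, h2, hy]
    ring

theorem Pi_mul_Pi (h : GQMat A s (s ^ 2 - s)) (hs : 3 ≤ s) {p q : V} (hpq : A p q = 1) :
    Pi A s p q * Pi A s p q = Pi A s p q := by
  obtain ⟨hs0, hs1, hs2, hs3⟩ := s_facts hs
  have h1 : W A s * Matrix.diagonal (e A p q) * W A s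
      * (W A s * Matrix.diagonal (e A p q) * W A s)
      = (s / (s ^ 2 - 1) : ℝ) • (W A s * Matrix.diagonal (e A p q) * W A s) := by
    calc _ = W A s * (Matrix.diagonal (e A p q) * (W A s * W A s)
          * Matrix.diagonal (e A p q) * W A s) := by
          simp only [Matrix.mul_assoc]
      _ = _ := by
          rw [W_mul_W h hs, WDWDW h hs hpq, Matrix.mul_smul, Matrix.mul_assoc]
  have h2 : W A s * (W A s * Matrix.diagonal (e A p q) * W A s)
      = W A s * Matrix.diagonal (e A p q) * W A s := by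
    rw [← Matrix.mul_assoc, ← Matrix.mul_assoc, W_mul_W h hs]
  have h3 : W A s * Matrix.diagonal (e A p q) * W A s * W A s
      = W A s * Matrix.diagonal (e A p q) * W A s := by
    rw [Matrix.mul_assoc _ (W A s) (W A s), W_mul_W h hs]
  rw [Pi, Matrix.sub_mul, Matrix.mul_sub, Matrix.mul_sub, Matrix.smul_mul, Matrix.mul_smul,
    Matrix.mul_smul, Matrix.smul_mul, h1, h2, h3, W_mul_W h hs]
  ext y z
  simp only [Matrix.sub_apply, Matrix.smul_apply, smul_eq_mul]
  field_simp
  ring

theorem Pi_transpose (h : GQMat A s (s ^ 2 - s)) (p q : V) : (Pi A s p q)ᵀ = Pi A s p q := by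
  simp [Pi, Matrix.transpose_sub, Matrix.transpose_mul, W_transpose h, Matrix.mul_assoc]

/-- The sum of the projections of the points of a line. -/
theorem sum_line_P (h : GQMat A s (s ^ 2 - s)) (hs : 3 ≤ s) {p q : V} (hpq : A p q = 1) :
    ∑ w, e A p q w • P A s w = ((s + 1) / s : ℝ) • Pi A s p q := by
  obtain ⟨hs0, hs1, hs2, hs3⟩ := s_facts hs
  have h1 : ∀ w, e A p q w • P A s w
      = W A s * (e A p q w • Matrix.diagonal (b A s w)) * W A s := by
    intro w
    rw [P, Matrix.mul_smul, Matrix.smul_mul]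
  simp_rw [h1]
  rw [← Finset.sum_mul, ← Finset.mul_sum]
  have h2 : ∑ w, e A p q w • Matrix.diagonal (b A s w)
      = ((s + 1) / s : ℝ) • (1 : Matrix V V ℝ)
        - ((s ^ 2 - 1) * (s + 1) / s ^ 2 : ℝ) • Matrix.diagonal (e A p q) := by
    ext y z
    rw [Matrix.sum_apply]
    simp only [Matrix.smul_apply, Matrix.sub_apply, smul_eq_mul]
    by_cases hyz : y = z
    · subst hyz
      simp only [Matrix.diagonal_apply_eq, Matrix.one_apply_eq]
      have key : ∀ w, e A p q w * b A s w y
          = e A p q w - (s ^ 2 - 1) / s * (A y w * e A p q w)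
          + (s ^ 2 - 1) * (s ^ 2 - 2 * s - 1) / s ^ 2
            * ((1 : Matrix V V ℝ) y w * e A p q w) := by
        intro w
        rw [b, h.symm w y, one_symm w y]
        ring
      simp_rw [key, Finset.sum_add_distrib, Finset.sum_sub_distrib, ← Finset.mul_sum,
        sum_one_mul, e_sum h hpq, e_line h hpq]
      field_simp
      ring
    · simp [Matrix.diagonal_apply_ne _ hyz, Matrix.one_apply_ne hyz]
  rw [h2, Matrix.mul_sub, Matrix.sub_mul, Matrix.mul_smul, Matrix.mul_one, Matrix.smul_mul,
    W_mul_W h hs, Matrix.mul_smul, Matrix.smul_mul, Pi, smul_sub, smul_smul]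
  congr 2
  field_simp

/-- `Pi` fixes `P p` for `p` on the line. -/
theorem Pi_mul_P (h : GQMat A s (s ^ 2 - s)) (hs : 3 ≤ s) {p q r : V} (hpq : A p q = 1)
    (hr : e A p q r = 1) : Pi A s p q * P A s r = P A s r := by
  have h1 : Matrix.diagonal (e A p q) * P A s r = 0 := by
    ext y z
    rw [Matrix.diagonal_mul, Matrix.zero_apply]
    rcases e_zero_one h hpq y with hy | hy
    · rw [hy]; ring
    · have h2 := e_clique h hpq hy r
      rw [hr] at h2
      have h3 : y = r ∨ A r y = 1 := by
        by_cases hyr : y = r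
        · exact Or.inl hyr
        · right
          rw [Matrix.one_apply_ne hyr] at h2
          rw [h.symm]
          linarith
      rw [P_zero_left h hs h3]; ring
  rw [Pi, Matrix.sub_mul, Matrix.smul_mul, W_mul_P h hs, Matrix.mul_assoc, Matrix.mul_assoc,
    W_mul_P h hs, h1]
  simp

theorem P_mul_Pi (h : GQMat A s (s ^ 2 - s)) (hs : 3 ≤ s) {p q r : V} (hpq : A p q = 1)
    (hr : e A p q r = 1) : P A s r * Pi A s p q = P A s r := by
  have := congrArg Matrix.transpose (Pi_mul_P h hs hpq hr)
  rwa [Matrix.transpose_mul, Pi_transpose h, P_transpose h] at this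

/-- **Adjacent projections are isoclinic.** -/
theorem P_iso (h : GQMat A s (s ^ 2 - s)) (hs : 3 ≤ s) {p q : V} (hpq : A p q = 1) :
    P A s q * P A s p * P A s q = (1 / s ^ 2 : ℝ) • P A s q := by
  obtain ⟨hs0, hs1, hs2, hs3⟩ := s_facts hs
  set Q := Pi A s p q with hQ
  set R : Matrix V V ℝ := (s / (s + 1) : ℝ) • Q + (s ^ 2 / (s + 1) : ℝ) • P A s p with hR
  set T : Matrix V V ℝ := ((s + 1) / s : ℝ) • Q - P A s p with hT
  have hp : e A p q p = 1 := e_left h hpq
  have hq : e A p q q = 1 := e_right h hpq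
  have hQQ : Q * Q = Q := Pi_mul_Pi h hs hpq
  have hQP : Q * P A s p = P A s p := Pi_mul_P h hs hpq hp
  have hPQ : P A s p * Q = P A s p := P_mul_Pi h hs hpq hp
  have hQq : Q * P A s q = P A s q := Pi_mul_P h hs hpq hq
  have hqQ : P A s q * Q = P A s q := P_mul_Pi h hs hpq hq
  have hPP := P_mul_P h hs p
  have hqq := P_mul_P h hs q
  have hRt : Rᵀ = R := by
    rw [hR, Matrix.transpose_add, Matrix.transpose_smul, Matrix.transpose_smul, hQ,
      Pi_transpose h, P_transpose h]
  have hRTR : R * T * R = R := by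
    have h1 : R * T = Q := by
      rw [hR, hT, Matrix.add_mul, Matrix.mul_sub, Matrix.mul_sub, Matrix.smul_mul,
        Matrix.smul_mul, Matrix.smul_mul, Matrix.smul_mul, Matrix.mul_smul, Matrix.mul_smul,
        hQQ, hQP, hPQ, hPP]
      ext y z
      simp only [Matrix.add_apply, Matrix.sub_apply, Matrix.smul_apply, smul_eq_mul]
      field_simp
      ring
    rw [h1, hR, Matrix.mul_add, Matrix.mul_smul, Matrix.mul_smul, hQQ, hQP]
  set Y : Matrix V V ℝ := P A s q * R * P A s q with hY
  have hYval : Y = (s / (s + 1) : ℝ) • P A s q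
      + (s ^ 2 / (s + 1) : ℝ) • (P A s q * P A s p * P A s q) := by
    rw [hY, hR, Matrix.mul_add, Matrix.add_mul, Matrix.mul_smul, Matrix.mul_smul,
      Matrix.smul_mul, Matrix.smul_mul, hqQ, hqq]
  have hYt : Yᵀ = Y := by
    rw [hY, Matrix.transpose_mul, Matrix.transpose_mul, hRt, P_transpose h, Matrix.mul_assoc]
  have htrY : Y.trace = s ^ 2 - s - 1 := by
    rw [hYval, Matrix.trace_add, Matrix.trace_smul, Matrix.trace_smul, trace_P h hs,
      Matrix.trace_mul_comm, ← Matrix.mul_assoc, hqq, Matrix.trace_mul_comm,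
      trace_adj h hs hpq]
    simp only [smul_eq_mul]
    field_simp
  -- the decomposition of `T` over the other points of the line
  have hTsum : T = ∑ w, (e A p q w - (1 : Matrix V V ℝ) p w) • P A s w := by
    simp_rw [sub_smul, Finset.sum_sub_distrib]
    rw [sum_line_P h hs hpq, hT]
    congr 1
    rw [Finset.sum_eq_single p]
    · rw [Matrix.one_apply_eq, one_smul]
    · intro w _ hw
      rw [Matrix.one_apply_ne hw.symm, zero_smul]
    · intro hp'
      exact absurd (Finset.mem_univ p) hp'
  have hnn : ∀ w, 0 ≤ e A p q w - (1 : Matrix V V ℝ) p w := by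
    intro w
    by_cases hw : p = w
    · subst hw
      rw [hp, Matrix.one_apply_eq]; norm_num
    · rw [Matrix.one_apply_ne hw]
      rcases e_zero_one h hpq w with h0 | h0 <;> rw [h0] <;> norm_num
  have hYsum : Y.trace = ∑ w, (e A p q w - (1 : Matrix V V ℝ) p w)
      * ((P A s w * R * P A s q)ᵀ * (P A s w * R * P A s q)).trace := by
    have h1 : Y = ∑ w, (e A p q w - (1 : Matrix V V ℝ) p w)
        • ((P A s w * R * P A s q)ᵀ * (P A s w * R * P A s q)) := by
      calc Y = P A s q * (R * T * R) * P A s q := by rw [hRTR]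
        _ = (P A s q * R) * T * (R * P A s q) := by simp only [Matrix.mul_assoc]
        _ = _ := by
          rw [hTsum, Finset.mul_sum, Finset.sum_mul]
          refine Finset.sum_congr rfl fun w _ => ?_
          rw [Matrix.mul_smul, Matrix.smul_mul, Matrix.transpose_mul, Matrix.transpose_mul,
            hRt, P_transpose h, P_transpose h]
          congr 1
          calc P A s q * R * P A s w * (R * P A s q)
              = P A s q * R * (P A s w * P A s w) * (R * P A s q) := by rw [P_mul_P h hs]
            _ = _ := by simp only [Matrix.mul_assoc]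
    conv_lhs => rw [h1]
    rw [Matrix.trace_sum]
    refine Finset.sum_congr rfl fun w _ => ?_
    rw [Matrix.trace_smul, smul_eq_mul]
  have hle : (Y * Y).trace ≤ Y.trace := by
    rw [hYsum]
    have h2 : (Y * Y).trace = (e A p q q - (1 : Matrix V V ℝ) p q)
        * ((P A s q * R * P A s q)ᵀ * (P A s q * R * P A s q)).trace := by
      rw [hq, Matrix.one_apply_ne (ne_of_adj h hpq), ← hY, hYt]
      ring
    rw [h2]
    exact Finset.single_le_sum (f := fun w => (e A p q w - (1 : Matrix V V ℝ) p w)
      * ((P A s w * R * P A s q)ᵀ * (P A s w * R * P A s q)).trace)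
      (fun w _ => mul_nonneg (hnn w) (trace_transpose_mul_self_nonneg _)) (Finset.mem_univ q)
  have hPY : P A s q * Y = Y := by
    rw [hY, ← Matrix.mul_assoc, ← Matrix.mul_assoc, hqq]
  have hYP : Y * P A s q = Y := by
    rw [hY, Matrix.mul_assoc, hqq]
  have hfin : P A s q - Y = 0 := by
    apply eq_zero_of_trace
    have h3 : (P A s q - Y)ᵀ * (P A s q - Y) = P A s q - Y - Y + Y * Y := by
      rw [Matrix.transpose_sub, P_transpose h, hYt, Matrix.sub_mul, Matrix.mul_sub,
        Matrix.mul_sub, hqq, hPY, hYP]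
      abel
    have h4 := trace_transpose_mul_self_nonneg (P A s q - Y)
    rw [h3, Matrix.trace_add, Matrix.trace_sub, Matrix.trace_sub, trace_P h hs, htrY] at h4 ⊢
    linarith
  have h5 : P A s q = Y := sub_eq_zero.1 hfin
  rw [hYval] at h5
  ext y z
  have h6 := congrFun (congrFun h5 y) z
  simp only [Matrix.add_apply, Matrix.smul_apply, smul_eq_mul] at h6 ⊢
  field_simp at h6 ⊢
  linarith

/-- The neighbours of `p` carry `1/s` of every vector in the range of `P q`, `q ~ p`. -/
theorem P_D_P (h : GQMat A s (s ^ 2 - s)) (hs : 3 ≤ s) {p q : V} (hpq : A p q = 1) (y z : V) :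
    ∑ w, P A s q y w * A p w * P A s q w z = 1 / s * P A s q y z := by
  obtain ⟨hs0, hs1, hs2, hs3⟩ := s_facts hs
  have h1 := P_iso h hs hpq
  rw [P_P_P h hs] at h1
  have h2 := congrFun (congrFun h1 y) z
  rw [Matrix.mul_apply, Matrix.smul_apply, smul_eq_mul] at h2
  simp_rw [Matrix.mul_diagonal] at h2
  have hqp : A q p = 1 := by rw [h.symm]; exact hpq
  have key : ∀ w, P A s q y w * b A s p w * P A s q w z = P A s q y w * P A s q w z
      - (s ^ 2 - 1) / s * (P A s q y w * A p w * P A s q w z)
      + (s ^ 2 - 1) * (s ^ 2 - 2 * s - 1) / s ^ 2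
        * ((1 : Matrix V V ℝ) p w * (P A s q y w * P A s q w z)) := by
    intro w
    rw [b]
    ring
  simp_rw [key, Finset.sum_add_distrib, Finset.sum_sub_distrib, ← Finset.mul_sum,
    sum_one_mul] at h2
  rw [← Matrix.mul_apply, P_mul_P h hs, P_zero_right h hs (Or.inr hqp)] at h2
  set X := ∑ w, P A s q y w * A p w * P A s q w z
  have h7 : (s ^ 2 - 1) * (s * X - P A s q y z) = 0 := by
    field_simp at h2
    linear_combination (-1) * h2
  have h8 := (mul_eq_zero.1 h7).resolve_left hs3
  field_simp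
  linarith

end Pool.Agent.H58.GQ
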