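import Mathlib
import Pool.Agent.H58.GQ.C2

/-!
Order `(s, s^2 - s - 1)`, third part: the eigenvector attached to a pair of noncollinear points,
its second and third moments, and its values.
-/

open Matrix Finset

namespace Pool.Agent.H58.GQ

open Pool.Agent.H253_GQ

variable {V : Type*} [Fintype V] [DecidableEq V] {A : V → V → ℝ} {s : ℝ}

theorem P_mul_A (h : GQMat A s (s ^ 2 - s)) (hs : 3 ≤ s) (p y x : V) :
    ∑ z, P A s p y z * A z x = -(s ^ 2 - s) * P A s p y x := by
  have e2 : ∀ z, P A s p y z = ∑ w, P A s p y w * W A s w z := by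
    intro z
    rw [← Matrix.mul_apply, P_mul_W h hs]
  calc ∑ z, P A s p y z * A z x = ∑ z, ∑ w, P A s p y w * (W A s w z * A z x) := by
        refine Finset.sum_congr rfl fun z _ => ?_
        rw [e2 z, Finset.sum_mul]
        exact Finset.sum_congr rfl fun w _ => by ring
    _ = ∑ w, P A s p y w * (-(s ^ 2 - s) * W A s w x) := by
        rw [Finset.sum_comm]
        refine Finset.sum_congr rfl fun w _ => ?_
        rw [← Finset.mul_sum, W_mul_A h hs]
    _ = -(s ^ 2 - s) * P A s p y x := by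
        rw [e2 x, Finset.mul_sum]
        exact Finset.sum_congr rfl fun w _ => by ring

theorem P_sum (h : GQMat A s (s ^ 2 - s)) (hs : 3 ≤ s) (p y : V) :
    ∑ z, P A s p y z = 0 := by
  have e2 : ∀ z, P A s p y z = ∑ w, P A s p y w * W A s w z := by
    intro z
    rw [← Matrix.mul_apply, P_mul_W h hs]
  calc ∑ z, P A s p y z = ∑ z, ∑ w, P A s p y w * W A s w z :=
        Finset.sum_congr rfl fun z _ => e2 z
    _ = ∑ w, P A s p y w * ∑ z, W A s w z := by
        rw [Finset.sum_comm]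
        exact Finset.sum_congr rfl fun w _ => by rw [Finset.mul_sum]
    _ = 0 := by
        refine Finset.sum_eq_zero fun w _ => ?_
        rw [W_sum h hs]; ring

theorem P_sq_col (h : GQMat A s (s ^ 2 - s)) (hs : 3 ≤ s) (p x : V) :
    ∑ z, P A s p z x ^ 2 = P A s p x x := by
  conv_rhs => rw [← P_mul_P h hs p, Matrix.mul_apply]
  exact Finset.sum_congr rfl fun z _ => by rw [P_symm h p x z]; ring

/-- If `P x y = P x x = P y y` then the columns of `x` and `y` agree. -/
theorem P_col_eq (h : GQMat A s (s ^ 2 - s)) (hs : 3 ≤ s) (p x y : V)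
    (h1 : P A s p x y = P A s p x x) (h2 : P A s p x y = P A s p y y) (z : V) :
    P A s p z x = P A s p z y := by
  have h3 : ∑ z, P A s p z x * P A s p z y = P A s p x y := by
    conv_rhs => rw [← P_mul_P h hs p, Matrix.mul_apply]
    exact Finset.sum_congr rfl fun z _ => by rw [P_symm h p x z]
  have h4 : ∑ z, (P A s p z x - P A s p z y) ^ 2 = 0 := by
    have : ∀ z, (P A s p z x - P A s p z y) ^ 2 = P A s p z x ^ 2
        - 2 * (P A s p z x * P A s p z y) + P A s p z y ^ 2 := by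
      intro z; ring
    simp_rw [this, Finset.sum_add_distrib, Finset.sum_sub_distrib, ← Finset.mul_sum]
    rw [h3, P_sq_col h hs, P_sq_col h hs, ← h1, ← h2]
    ring
  have h5 := (Finset.sum_eq_zero_iff_of_nonneg (fun z _ => sq_nonneg _)).1 h4 z
    (Finset.mem_univ z)
  have h6 := pow_eq_zero_iff (two_ne_zero) |>.1 h5
  linarith

omit [Fintype V] in
theorem g_one {p x : V} (hpx : p ≠ x) (hpx' : A p x = 0) : gf A p x = 1 := by
  rw [gf, Matrix.one_apply_ne hpx, hpx']; ring

/-- The cubic identity. -/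
theorem cubic (h : GQMat A s (s ^ 2 - s)) (hs : 3 ≤ s) {p x : V} (hpx : p ≠ x)
    (hpx' : A p x = 0) (y : V) :
    ∑ z, P A s p y z * P A s p z x ^ 2 = (s - 2) / (s ^ 2 * (s ^ 2 - 1)) * P A s p y x := by
  obtain ⟨hs0, hs1, hs2, hs3⟩ := s_facts hs
  have hgx : gf A p x = 1 := g_one hpx hpx'
  have key : ∀ z, P A s p y z * P A s p z x ^ 2
      = (s ^ 2 * (s - 1) * ((1 : Matrix V V ℝ) x z * (P A s p y z * P A s p z x))
        + 1 / (s - 1) * (P A s p y z * A z x)
        + (s ^ 2 - 1) * (P A s p y z * P A s p z x)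
        - s * ∑ w, A p w * A w x * (P A s p y z * A w z * P A s p z x))
          / (s ^ 2 * (s ^ 2 - 1)) := by
    intro z
    rcases g_cases h p z with ⟨_, h0⟩ | ⟨hg, hz, hz'⟩
    · rw [P_zero_right h hs h0 y, P_zero_left h hs h0 x]
      simp
    · have e1 : P A s p z x = (s ^ 2 * (s - 1) * (1 : Matrix V V ℝ) z x - s ^ 2 * A z x
          + (s ^ 2 - 1) - s * ∑ w, A p w * (A z w * A x w)) / (s ^ 2 * (s ^ 2 - 1)) :=
        P_entry h hs hz hz' hpx hpx'
      have e2 : A z x * P A s p z x = - (1 / (s ^ 2 * (s - 1))) * A z x := by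
        rcases h.zero_one z x with h0 | h0
        · rw [h0]; ring
        · rw [P_edge h hs p h0, hg, hgx, h0]; ring
      have e3 : ∑ w, A p w * A w x * (P A s p y z * A w z * P A s p z x)
          = P A s p y z * P A s p z x * ∑ w, A p w * (A z w * A x w) := by
        rw [Finset.mul_sum]
        exact Finset.sum_congr rfl fun w _ => by rw [h.symm w x, h.symm w z]; ring
      rw [e3, one_symm x z]
      calc P A s p y z * P A s p z x ^ 2 = P A s p y z * P A s p z x * P A s p z x := by ring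
        _ = P A s p y z * P A s p z x * ((s ^ 2 * (s - 1) * (1 : Matrix V V ℝ) z x
          - s ^ 2 * A z x + (s ^ 2 - 1) - s * ∑ w, A p w * (A z w * A x w))
            / (s ^ 2 * (s ^ 2 - 1))) := by rw [← e1]
        _ = (s ^ 2 * (s - 1) * ((1 : Matrix V V ℝ) z x * (P A s p y z * P A s p z x))
          - s ^ 2 * P A s p y z * (A z x * P A s p z x)
          + (s ^ 2 - 1) * (P A s p y z * P A s p z x)
          - s * (P A s p y z * P A s p z x * ∑ w, A p w * (A z w * A x w)))
            / (s ^ 2 * (s ^ 2 - 1)) := by ring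
        _ = _ := by
          rw [e2]
          congr 1
          field_simp
          ring
  have hin : ∀ w, A p w * A w x * ∑ z, P A s p y z * A w z * P A s p z x
      = 1 / s * P A s p y x * (A p w * A w x) := by
    intro w
    rcases h.zero_one p w with h0 | h0
    · rw [h0]; ring
    · have h1 : A w p = 1 := by rw [h.symm]; exact h0
      rw [P_D_P h hs h1]; ring
  simp_rw [key, ← Finset.sum_div, Finset.sum_sub_distrib, Finset.sum_add_distrib,
    ← Finset.mul_sum, sum_one_mul, P_mul_A h hs]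
  rw [Finset.sum_comm]
  simp_rw [← Finset.mul_sum, hin]
  rw [← Finset.mul_sum, h.sq, ← Matrix.mul_apply, P_mul_P h hs, P_diag h hs, hgx, hpx',
    Matrix.one_apply_ne hpx]
  field_simp
  ring

/-- Images of squares. -/
theorem W_sq (h : GQMat A s (s ^ 2 - s)) (hs : 3 ≤ s) {p x : V} (hpx : p ≠ x)
    (hpx' : A p x = 0) (y : V) :
    ∑ z, W A s y z * P A s p z x ^ 2
      = (s - 2) / (s ^ 2 * (s ^ 2 - 1)) * P A s p y x + 1 / s ^ 4 * W A s y p := by
  obtain ⟨hs0, hs1, hs2, hs3⟩ := s_facts hs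
  have hgx : gf A p x = 1 := g_one hpx hpx'
  set u2 : V → ℝ := fun z => P A s p z x ^ 2 with hu2
  set hv : V → ℝ := fun y => ∑ z, W A s y z * u2 z - 1 / s ^ 4 * W A s y p with hhv
  have hWh : ∀ y, ∑ z, W A s y z * hv z = hv y := by
    intro y
    simp only [hhv, mul_sub, Finset.sum_sub_distrib]
    congr 1
    · simp_rw [Finset.mul_sum]
      rw [Finset.sum_comm]
      refine Finset.sum_congr rfl fun z _ => ?_
      simp_rw [← mul_assoc, ← Finset.sum_mul]
      rw [← Matrix.mul_apply, W_mul_W h hs]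
    · have : ∀ z, W A s y z * (1 / s ^ 4 * W A s z p)
          = 1 / s ^ 4 * (W A s y z * W A s z p) := by
        intro z; ring
      simp_rw [this, ← Finset.mul_sum]
      rw [← Matrix.mul_apply, W_mul_W h hs]
  have hsum : ∑ z, u2 z = 1 / s ^ 2 := by
    simp only [hu2]
    rw [P_sq_col h hs, P_diag h hs, hgx]
  have hvan : ∀ q, (q = p ∨ A p q = 1) → hv q = 0 := by
    intro q hq
    have h1 : ∑ z, W A s q z * u2 z
        = ((s - 1) * u2 q - ∑ z, A q z * u2 z + 1 / (s + 1) * ∑ z, u2 z) / (s ^ 2 - 1) := by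
      have : ∀ z, W A s q z * u2 z = ((s - 1) * ((1 : Matrix V V ℝ) q z * u2 z)
          - A q z * u2 z + 1 / (s + 1) * u2 z) / (s ^ 2 - 1) := by
        intro z
        rw [W_apply]; ring
      simp_rw [this, ← Finset.sum_div, Finset.sum_add_distrib, Finset.sum_sub_distrib,
        ← Finset.mul_sum, sum_one_mul]
    have h2 : u2 q = 0 := by
      simp only [hu2]
      rw [P_zero_left h hs hq]; ring
    simp only [hhv]
    rw [h1, h2, hsum]
    rcases hq with rfl | hq
    · have h3 : ∑ z, A q z * u2 z = 0 := by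
        apply Finset.sum_eq_zero
        intro z _
        rcases h.zero_one q z with h0 | h0
        · rw [h0]; ring
        · simp only [hu2]
          rw [P_zero_left h hs (Or.inr h0)]; ring
      rw [h3, W_apply, h.diag, Matrix.one_apply_eq]
      field_simp
      ring
    · have h3 : ∑ z, A q z * u2 z = 1 / s ^ 3 := by
        have h4 : A q p = 1 := by rw [h.symm]; exact hq
        have h5 := P_D_P h hs h4 x x
        rw [P_diag h hs, hgx] at h5
        have h6 : ∑ z, A q z * u2 z = ∑ w, P A s p x w * A q w * P A s p w x := by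
          refine Finset.sum_congr rfl fun z _ => ?_
          simp only [hu2]
          rw [P_symm h p x z]; ring
        rw [h6, h5]
        field_simp
      rw [h3, W_apply, h.symm q p, hq, Matrix.one_apply_ne (ne_of_adj h hq).symm]
      field_simp
      ring
  have hbh : ∀ w, b A s p w * hv w = hv w := by
    intro w
    rcases g_cases h p w with ⟨_, h0⟩ | ⟨_, h0, h1⟩
    · rw [hvan w h0]; ring
    · rw [b, h1, Matrix.one_apply_ne h0]; ring
  have hPh : ∑ z, P A s p y z * hv z = hv y := by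
    simp_rw [P_apply]
    have h1 : ∀ z, (∑ w, W A s y w * b A s p w * W A s w z) * hv z
        = ∑ w, W A s y w * b A s p w * (W A s w z * hv z) := by
      intro z
      rw [Finset.sum_mul]
      exact Finset.sum_congr rfl fun w _ => by ring
    simp_rw [h1]
    rw [Finset.sum_comm]
    simp_rw [← Finset.mul_sum, hWh, mul_assoc, hbh]
    exact hWh y
  have hPh2 : ∑ z, P A s p y z * hv z
      = (s - 2) / (s ^ 2 * (s ^ 2 - 1)) * P A s p y x := by
    have h1 : ∀ z, P A s p y z * hv z = ∑ w, P A s p y z * W A s z w * u2 w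
        - 1 / s ^ 4 * (P A s p y z * W A s z p) := by
      intro z
      simp only [hhv]
      rw [mul_sub, Finset.mul_sum]
      congr 1
      · exact Finset.sum_congr rfl fun w _ => by ring
      · ring
    simp_rw [h1, Finset.sum_sub_distrib, ← Finset.mul_sum]
    rw [Finset.sum_comm]
    simp_rw [← Finset.sum_mul, ← Matrix.mul_apply]
    rw [P_mul_W h hs, P_self h hs, ← cubic h hs hpx hpx' y]
    ring
  have h7 : hv y = (s - 2) / (s ^ 2 * (s ^ 2 - 1)) * P A s p y x := by rw [← hPh, hPh2]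
  simp only [hhv] at h7
  linarith

/-- The eigenvector attached to the pair `p`, `x`. -/
noncomputable def F (A : V → V → ℝ) (s : ℝ) (p x : V) : V → ℝ :=
  fun y => s * (s ^ 2 - 1) * P A s p y x + (s + 1) * (s ^ 2 - 1) / s * W A s y p

theorem W_F (h : GQMat A s (s ^ 2 - s)) (hs : 3 ≤ s) (p x y : V) :
    ∑ z, W A s y z * F A s p x z = F A s p x y := by
  unfold F
  have key : ∀ z, W A s y z * (s * (s ^ 2 - 1) * P A s p z x
      + (s + 1) * (s ^ 2 - 1) / s * W A s z p)
      = s * (s ^ 2 - 1) * (W A s y z * P A s p z x)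
        + (s + 1) * (s ^ 2 - 1) / s * (W A s y z * W A s z p) := by
    intro z; ring
  simp_rw [key, Finset.sum_add_distrib, ← Finset.mul_sum, ← Matrix.mul_apply]
  rw [W_mul_P h hs, W_mul_W h hs]

theorem F_sq_expand (h : GQMat A s (s ^ 2 - s)) (hs : 3 ≤ s) {p x : V} (z : V) :
    F A s p x z ^ 2 = s ^ 2 * (s ^ 2 - 1) ^ 2 * P A s p z x ^ 2
      + 2 * (s ^ 2 - 1) * P A s p z x
      + 1 / s ^ 2 * (1 + (s ^ 2 - 1) * A z p + (s ^ 4 - 1) * (1 : Matrix V V ℝ) z p) := by
  obtain ⟨hs0, hs1, hs2, hs3⟩ := s_facts hs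
  unfold F
  have h1 : P A s p z x * W A s z p = 1 / ((s + 1) * (s ^ 2 - 1)) * P A s p z x := by
    rcases g_cases h p z with ⟨_, h0⟩ | ⟨_, h0, h1⟩
    · rw [P_zero_left h hs h0]; ring
    · rw [W_apply, h.symm z p, h1, Matrix.one_apply_ne h0.symm]
      field_simp
      ring
  have h2 : W A s z p ^ 2 = (1 + (s ^ 2 - 1) * A z p
      + (s ^ 4 - 1) * (1 : Matrix V V ℝ) z p) / ((s + 1) ^ 2 * (s ^ 2 - 1) ^ 2) := by
    rw [W_apply]
    by_cases hz : z = p
    · subst hz
      rw [h.diag, Matrix.one_apply_eq]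
      field_simp
      ring
    · rw [Matrix.one_apply_ne hz]
      rcases h.zero_one z p with h0 | h0 <;> rw [h0] <;> field_simp <;> ring
  calc (s * (s ^ 2 - 1) * P A s p z x + (s + 1) * (s ^ 2 - 1) / s * W A s z p) ^ 2
      = s ^ 2 * (s ^ 2 - 1) ^ 2 * P A s p z x ^ 2
        + 2 * (s * (s ^ 2 - 1)) * ((s + 1) * (s ^ 2 - 1) / s) * (P A s p z x * W A s z p)
        + ((s + 1) * (s ^ 2 - 1) / s) ^ 2 * W A s z p ^ 2 := by ring
    _ = _ := by
      rw [h1, h2]
      field_simp

theorem W_F_sq (h : GQMat A s (s ^ 2 - s)) (hs : 3 ≤ s) {p x : V} (hpx : p ≠ x)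
    (hpx' : A p x = 0) (y : V) :
    ∑ z, W A s y z * F A s p x z ^ 2 = F A s p x y := by
  obtain ⟨hs0, hs1, hs2, hs3⟩ := s_facts hs
  have key : ∀ z, W A s y z * F A s p x z ^ 2
      = s ^ 2 * (s ^ 2 - 1) ^ 2 * (W A s y z * P A s p z x ^ 2)
        + 2 * (s ^ 2 - 1) * (W A s y z * P A s p z x)
        + 1 / s ^ 2 * (W A s y z + (s ^ 2 - 1) * (W A s y z * A z p)
          + (s ^ 4 - 1) * ((1 : Matrix V V ℝ) z p * W A s y z)) := by
    intro z
    rw [F_sq_expand h hs]; ring
  have h1 : ∑ z, W A s y z * P A s p z x = P A s p y x := by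
    rw [← Matrix.mul_apply, W_mul_P h hs]
  simp_rw [key, Finset.sum_add_distrib, ← Finset.mul_sum, Finset.sum_add_distrib,
    ← Finset.mul_sum, W_sq h hs hpx hpx', h1, W_sum h hs, W_mul_A h hs, sum_one_mul']
  unfold F
  field_simp
  ring

theorem F_norm (h : GQMat A s (s ^ 2 - s)) (hs : 3 ≤ s) {p x : V} (hpx : p ≠ x)
    (hpx' : A p x = 0) :
    ∑ z, F A s p x z ^ 2 = s * (s + 1) ^ 2 * (s - 1) := by
  obtain ⟨hs0, hs1, hs2, hs3⟩ := s_facts hs
  have hgx : gf A p x = 1 := g_one hpx hpx'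
  have h1 : ∑ z, P A s p z x = 0 := by
    rw [← P_sum h hs p x]
    exact Finset.sum_congr rfl fun z _ => P_symm h p z x
  have h2 : ∑ z, A z p = s * (s ^ 2 - s) := by
    rw [← h.deg p]
    exact Finset.sum_congr rfl fun z _ => h.symm z p
  have h3 : ∑ z, (1 : Matrix V V ℝ) z p = 1 := by
    simp [Matrix.one_apply]
  simp_rw [F_sq_expand h hs, Finset.sum_add_distrib, ← Finset.mul_sum,
    Finset.sum_add_distrib, ← Finset.mul_sum, P_sq_col h hs, h1, h2, h3, P_diag h hs, hgx]
  simp only [Finset.sum_const, Finset.card_univ, nsmul_eq_mul]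
  rw [card_eq h hs p]
  field_simp
  ring

theorem F_sum (h : GQMat A s (s ^ 2 - s)) (hs : 3 ≤ s) (p x : V) :
    ∑ z, F A s p x z = 0 := by
  have h1 : ∑ z, P A s p z x = 0 := by
    rw [← P_sum h hs p x]
    exact Finset.sum_congr rfl fun z _ => P_symm h p z x
  have h2 : ∑ z, W A s z p = 0 := by
    rw [← W_sum h hs p]
    exact Finset.sum_congr rfl fun z _ => W_symm h z p
  unfold F
  simp_rw [Finset.sum_add_distrib, ← Finset.mul_sum, h1, h2]
  ring

/-- The third moment equals the second. -/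
theorem F_cube (h : GQMat A s (s ^ 2 - s)) (hs : 3 ≤ s) {p x : V} (hpx : p ≠ x)
    (hpx' : A p x = 0) :
    ∑ z, F A s p x z ^ 3 = ∑ z, F A s p x z ^ 2 := by
  calc ∑ z, F A s p x z ^ 3 = ∑ z, (∑ y, W A s z y * F A s p x y) * F A s p x z ^ 2 := by
        refine Finset.sum_congr rfl fun z _ => ?_
        rw [W_F h hs]; ring
    _ = ∑ y, F A s p x y * ∑ z, W A s y z * F A s p x z ^ 2 := by
        simp_rw [Finset.sum_mul, Finset.mul_sum]
        rw [Finset.sum_comm]
        refine Finset.sum_congr rfl fun y _ => Finset.sum_congr rfl fun z _ => ?_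
        rw [W_symm h z y]; ring
    _ = ∑ z, F A s p x z ^ 2 := by
        refine Finset.sum_congr rfl fun y _ => ?_
        rw [W_F_sq h hs hpx hpx']; ring

theorem F_nbr_sq (h : GQMat A s (s ^ 2 - s)) (hs : 3 ≤ s) {p x : V} (hpx : p ≠ x)
    (hpx' : A p x = 0) (y : V) :
    ∑ z, A y z * F A s p x z ^ 2
      = (s - 1) * F A s p x y ^ 2 - (s ^ 2 - 1) * F A s p x y + s * (s ^ 2 - 1) := by
  obtain ⟨hs0, hs1, hs2, hs3⟩ := s_facts hs
  have h1 := W_F_sq h hs hpx hpx' y
  have key : ∀ z, W A s y z * F A s p x z ^ 2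
      = ((s - 1) * ((1 : Matrix V V ℝ) y z * F A s p x z ^ 2) - A y z * F A s p x z ^ 2
        + 1 / (s + 1) * F A s p x z ^ 2) / (s ^ 2 - 1) := by
    intro z
    rw [W_apply]; ring
  simp_rw [key, ← Finset.sum_div, Finset.sum_add_distrib, Finset.sum_sub_distrib,
    ← Finset.mul_sum, sum_one_mul, F_norm h hs hpx hpx'] at h1
  rw [div_eq_iff hs3] at h1
  have h2 : 1 / (s + 1) * (s * (s + 1) ^ 2 * (s - 1)) = s * (s ^ 2 - 1) := by
    field_simp
    ring
  rw [h2] at h1
  linarith

theorem F_line (h : GQMat A s (s ^ 2 - s)) (hs : 3 ≤ s) (p x : V) {q r : V}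
    (hqr : A q r = 1) : ∑ w, e A q r w * F A s p x w = 0 := by
  have h1 : ∀ w, e A q r w * F A s p x w = ∑ z, F A s p x z * (W A s z w * e A q r w) := by
    intro w
    rw [← W_F h hs p x w, Finset.mul_sum]
    exact Finset.sum_congr rfl fun z _ => by rw [W_symm h w z]; ring
  simp_rw [h1]
  rw [Finset.sum_comm]
  simp_rw [← Finset.mul_sum, W_line h hs hqr]
  simp

theorem F_nbr (h : GQMat A s (s ^ 2 - s)) (hs : 3 ≤ s) (p x y : V) :
    ∑ z, A y z * F A s p x z = -(s ^ 2 - s) * F A s p x y := by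
  have h1 : ∀ z, A y z * F A s p x z = ∑ w, F A s p x w * (W A s w z * A z y) := by
    intro z
    rw [← W_F h hs p x z, Finset.mul_sum]
    exact Finset.sum_congr rfl fun w _ => by rw [W_symm h z w, h.symm y z]; ring
  simp_rw [h1]
  rw [Finset.sum_comm]
  simp_rw [← Finset.mul_sum, W_mul_A h hs]
  rw [← W_F h hs p x y, Finset.mul_sum]
  exact Finset.sum_congr rfl fun w _ => by rw [W_symm h y w]; ring

/-- The lower bound: `s^2 + s (s-1) f - f^2 ≥ 0`. -/
theorem F_lower (h : GQMat A s (s ^ 2 - s)) (hs : 3 ≤ s) {p x : V} (hpx : p ≠ x)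
    (hpx' : A p x = 0) (y : V) :
    0 ≤ s ^ 2 + s * (s - 1) * F A s p x y - F A s p x y ^ 2 := by
  obtain ⟨hs0, hs1, hs2, hs3⟩ := s_facts hs
  set f : V → ℝ := F A s p x with hf
  -- `Σ b_y f^2 = |P_y f|^2`
  have h1 : ∑ z, b A s y z * f z ^ 2 = ∑ z, (∑ w, P A s y z w * f w) ^ 2 := by
    have h2 : ∑ z, f z * ∑ w, P A s y z w * f w = ∑ z, b A s y z * f z ^ 2 := by
      have h3 : ∀ z, ∑ w, P A s y z w * f w = ∑ v, W A s z v * (b A s y v * f v) := by
        intro z
        simp_rw [P_apply, Finset.sum_mul]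
        rw [Finset.sum_comm]
        refine Finset.sum_congr rfl fun v _ => ?_
        have h4 : ∑ w, W A s v w * f w = f v := W_F h hs p x v
        calc ∑ w, W A s z v * b A s y v * W A s v w * f w
            = W A s z v * (b A s y v * ∑ w, W A s v w * f w) := by
              rw [Finset.mul_sum, Finset.mul_sum]
              exact Finset.sum_congr rfl fun w _ => by ring
          _ = W A s z v * (b A s y v * f v) := by rw [h4]
      simp_rw [h3, Finset.mul_sum]
      rw [Finset.sum_comm]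
      refine Finset.sum_congr rfl fun v _ => ?_
      have h4 : ∑ z, W A s v z * f z = f v := W_F h hs p x v
      calc ∑ z, f z * (W A s z v * (b A s y v * f v))
          = (b A s y v * f v) * ∑ z, W A s v z * f z := by
            rw [Finset.mul_sum]
            exact Finset.sum_congr rfl fun z _ => by rw [W_symm h z v]; ring
        _ = b A s y v * f v ^ 2 := by rw [h4]; ring
    have h5 : ∑ z, (∑ w, P A s y z w * f w) ^ 2 = ∑ z, f z * ∑ w, P A s y z w * f w := by
      have h6 : ∀ z, (∑ w, P A s y z w * f w) ^ 2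
          = ∑ w, f w * (P A s y w z * ∑ v, P A s y z v * f v) := by
        intro z
        rw [sq]
        conv_lhs => rw [Finset.sum_mul]
        exact Finset.sum_congr rfl fun w _ => by rw [P_symm h y z w]; ring
      simp_rw [h6]
      rw [Finset.sum_comm]
      refine Finset.sum_congr rfl fun w _ => ?_
      rw [← Finset.mul_sum]
      congr 1
      simp_rw [Finset.mul_sum, ← mul_assoc]
      rw [Finset.sum_comm]
      simp_rw [← Finset.sum_mul, ← Matrix.mul_apply]
      rw [P_mul_P h hs]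
    rw [h5, h2]
  have h2 : 0 ≤ ∑ z, b A s y z * f z ^ 2 := by
    rw [h1]
    exact Finset.sum_nonneg fun z _ => sq_nonneg _
  have key : ∀ z, b A s y z * f z ^ 2 = f z ^ 2 - (s ^ 2 - 1) / s * (A y z * f z ^ 2)
      + (s ^ 2 - 1) * (s ^ 2 - 2 * s - 1) / s ^ 2
        * ((1 : Matrix V V ℝ) y z * f z ^ 2) := by
    intro z
    rw [b]; ring
  simp_rw [key, Finset.sum_add_distrib, Finset.sum_sub_distrib, ← Finset.mul_sum,
    sum_one_mul] at h2
  rw [hf, F_norm h hs hpx hpx', F_nbr_sq h hs hpx hpx'] at h2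
  rw [hf]
  have hpos : 0 < (s ^ 2 - 1) * (s + 1) / s ^ 2 := by
    have : 0 < s ^ 2 - 1 := by nlinarith
    positivity
  have h3 : s * (s + 1) ^ 2 * (s - 1) - (s ^ 2 - 1) / s
        * ((s - 1) * F A s p x y ^ 2 - (s ^ 2 - 1) * F A s p x y + s * (s ^ 2 - 1))
      + (s ^ 2 - 1) * (s ^ 2 - 2 * s - 1) / s ^ 2 * F A s p x y ^ 2
      = (s ^ 2 - 1) * (s + 1) / s ^ 2
        * (s ^ 2 + s * (s - 1) * F A s p x y - F A s p x y ^ 2) := by
    field_simp
    ring
  rw [h3] at h2
  exact nonneg_of_mul_nonneg_right h2 hpos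

theorem F_self (h : GQMat A s (s ^ 2 - s)) (hs : 3 ≤ s) (p x : V) : F A s p x p = s := by
  obtain ⟨hs0, hs1, hs2, hs3⟩ := s_facts hs
  rw [F, P_zero_left h hs (Or.inl rfl), W_apply, h.diag, Matrix.one_apply_eq]
  field_simp
  ring

theorem F_adj (h : GQMat A s (s ^ 2 - s)) (hs : 3 ≤ s) {p y : V} (hy : A p y = 1) (x : V) :
    F A s p x y = -1 := by
  obtain ⟨hs0, hs1, hs2, hs3⟩ := s_facts hs
  rw [F, P_zero_left h hs (Or.inr hy), W_apply, h.symm, hy,
    Matrix.one_apply_ne (ne_of_adj h hy).symm]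
  field_simp
  ring

theorem F_far (h : GQMat A s (s ^ 2 - s)) (hs : 3 ≤ s) {p x y : V} (hpx : p ≠ x)
    (hpx' : A p x = 0) (hy : p ≠ y) (hy' : A p y = 0) :
    F A s p x y = s * (s - 1) * (1 : Matrix V V ℝ) y x - s * A y x + s
      - ∑ w, A p w * (A y w * A x w) := by
  obtain ⟨hs0, hs1, hs2, hs3⟩ := s_facts hs
  rw [F, P_entry h hs hy hy' hpx hpx', W_apply, h.symm y p, hy', Matrix.one_apply_ne hy.symm]
  field_simp
  ring

/-- On a line the values of two points add up to at most `s - 1`. -/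
theorem F_line_le (h : GQMat A s (s ^ 2 - s)) (hs : 3 ≤ s) {p x : V}
    (hge : ∀ w, -1 ≤ F A s p x w) {y z : V} (hyz : A y z = 1) :
    F A s p x y + F A s p x z ≤ s - 1 := by
  have h1 := F_line h hs p x hyz
  have h2 := e_sum h hyz
  have h3 : ∑ w, e A y z w * (F A s p x w + 1) = s + 1 := by
    simp_rw [mul_add, Finset.sum_add_distrib, mul_one]
    rw [h1, h2]; ring
  have hne := ne_of_adj h hyz
  have h4 : ∑ w ∈ ({y, z} : Finset V), e A y z w * (F A s p x w + 1)
      ≤ ∑ w, e A y z w * (F A s p x w + 1) := by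
    apply Finset.sum_le_sum_of_subset_of_nonneg (Finset.subset_univ _)
    intro w _ _
    have := hge w
    apply mul_nonneg
    · rcases e_zero_one h hyz w with h5 | h5 <;> rw [h5]
      norm_num
    · linarith
  rw [Finset.sum_pair hne, e_left h hyz, e_right h hyz, h3] at h4
  linarith

/-- Every point has a point not collinear with it. -/
theorem exists_far (h : GQMat A s (s ^ 2 - s)) (hs : 3 ≤ s) (p : V) :
    ∃ x, p ≠ x ∧ A p x = 0 := by
  obtain ⟨hs0, hs1, hs2, hs3⟩ := s_facts hs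
  have hex : ∃ x, gf A p x ≠ 0 := by
    by_contra hcon
    push Not at hcon
    have h1 := sum_g h hs p
    simp_rw [hcon] at h1
    simp only [Finset.sum_const_zero] at h1
    have h2 : 0 < s ^ 2 * (s ^ 2 - s - 1) := by
      apply mul_pos
      · positivity
      · nlinarith
    linarith
  obtain ⟨x, hx⟩ := hex
  rcases g_cases h p x with ⟨hg, _⟩ | ⟨_, hpx, hpx'⟩
  · exact absurd hg hx
  · exact ⟨x, hpx, hpx'⟩

end Pool.Agent.H58.GQ
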