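import Mathlib
import Pool.Graph.R_pool_sql_team_seeded_620a6dc7.H253_GQ.Core

/-!
General linear algebra of generalized quadrangles of order `(s, m - 1)`: the projection onto the
eigenspace for `-m`, the integrality of its rank, and Higman's bound `m ≤ s^2 + 1`.
-/

open Matrix Finset

namespace Pool.Agent.H58.GQ.Gen

open Pool.Agent.H253_GQ

variable {V : Type*} [Fintype V] [DecidableEq V]

/-- The orthogonal projection onto the eigenspace for the least eigenvalue `-m`. -/
noncomputable def W (A : V → V → ℝ) (s m : ℝ) : Matrix V V ℝ :=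
  Matrix.of fun x y => ((s - 1) * (1 : Matrix V V ℝ) x y - A x y + 1 / (s + 1)) / (s - 1 + m)

section
variable {A : V → V → ℝ} {s m : ℝ}

omit [Fintype V] in
theorem W_apply (x y : V) :
    W A s m x y = ((s - 1) * (1 : Matrix V V ℝ) x y - A x y + 1 / (s + 1)) / (s - 1 + m) := rfl

theorem W_symm (h : GQMat A s m) (x y : V) : W A s m x y = W A s m y x := by
  rw [W_apply, W_apply, h.symm x y, one_symm x y]

/-- The number of points. -/
theorem card_eq (h : GQMat A s m) (hm : 1 ≤ m) (x : V) :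
    (Fintype.card V : ℝ) = (s + 1) * (s * (m - 1) + 1) := by
  have h1 : ∑ z, ∑ y, A x y * A y z = (s * m) * (s * m) := by
    rw [Finset.sum_comm]
    simp_rw [← Finset.mul_sum, h.deg, ← Finset.sum_mul, h.deg]
  have h2 : ∑ z, ∑ y, A x y * A y z
      = m * Fintype.card V + (s - 1) * m + (s - 1 - m) * (s * m) := by
    simp_rw [h.sq, Finset.sum_add_distrib, ← Finset.mul_sum, sum_one, h.deg]
    simp
    ring
  have hm0 : m ≠ 0 := by linarith
  have h3 : m * (Fintype.card V : ℝ) = m * ((s + 1) * (s * (m - 1) + 1)) := by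
    linear_combination h1 - h2
  exact mul_left_cancel₀ hm0 h3

theorem W_sum (h : GQMat A s m) (hs : 1 ≤ s) (hm : 1 ≤ m) (x : V) : ∑ y, W A s m x y = 0 := by
  have hs1 : s + 1 ≠ 0 := by linarith
  have hsm : s - 1 + m ≠ 0 := by linarith
  simp_rw [W_apply, ← Finset.sum_div, Finset.sum_add_distrib, Finset.sum_sub_distrib,
    ← Finset.mul_sum, sum_one, h.deg]
  simp only [Finset.sum_const, Finset.card_univ, nsmul_eq_mul]
  rw [card_eq h hm x]
  field_simp
  ring

theorem W_mul_A (h : GQMat A s m) (hs : 1 ≤ s) (hm : 1 ≤ m) (x z : V) :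
    ∑ y, W A s m x y * A y z = -m * W A s m x z := by
  have hs1 : s + 1 ≠ 0 := by linarith
  have hsm : s - 1 + m ≠ 0 := by linarith
  have h0 : ∀ y, W A s m x y * A y z = ((s - 1) * ((1 : Matrix V V ℝ) x y * A y z)
      - A x y * A y z + 1 / (s + 1) * A z y) / (s - 1 + m) := by
    intro y
    rw [W_apply, h.symm z y]
    ring
  simp_rw [h0, ← Finset.sum_div, Finset.sum_add_distrib, Finset.sum_sub_distrib,
    ← Finset.mul_sum, sum_one_mul, h.deg, h.sq, W_apply]
  field_simp
  ring

theorem W_mul_W (h : GQMat A s m) (hs : 1 ≤ s) (hm : 1 ≤ m) :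
    W A s m * W A s m = W A s m := by
  have hs1 : s + 1 ≠ 0 := by linarith
  have hsm : s - 1 + m ≠ 0 := by linarith
  ext x z
  rw [Matrix.mul_apply]
  have h0 : ∀ y, W A s m x y * W A s m y z = ((s - 1) * ((1 : Matrix V V ℝ) y z * W A s m x y)
      - W A s m x y * A y z + 1 / (s + 1) * W A s m x y) / (s - 1 + m) := by
    intro y
    rw [W_apply y z]
    ring
  simp_rw [h0, ← Finset.sum_div, Finset.sum_add_distrib, Finset.sum_sub_distrib,
    ← Finset.mul_sum, sum_one_mul', W_mul_A h hs hm, W_sum h hs hm]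
  field_simp
  ring

/-- The rank of `W` is a natural number. -/
theorem trace_nat (h : GQMat A s m) (hs : 1 ≤ s) (hm : 1 ≤ m) (x : V) :
    ∃ n : ℕ, s ^ 2 * (s * (m - 1) + 1) = n * (s - 1 + m) := by
  obtain ⟨n, hn⟩ := trace_idem_nat (W A s m) (W_mul_W h hs hm)
  refine ⟨n, ?_⟩
  have hs1 : s + 1 ≠ 0 := by linarith
  have hsm : s - 1 + m ≠ 0 := by linarith
  rw [← hn, Matrix.trace]
  simp_rw [Matrix.diag_apply, W_apply, h.diag, Matrix.one_apply_eq]
  simp only [Finset.sum_const, Finset.card_univ, nsmul_eq_mul]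
  rw [card_eq h hm x]
  field_simp
  ring

/-- The quadratic form of `W` is nonnegative. -/
theorem quad_nonneg (h : GQMat A s m) (hs : 1 ≤ s) (hm : 1 ≤ m) (u : V → ℝ) :
    0 ≤ ∑ x, ∑ y, u x * W A s m x y * u y := by
  have h1 : ∑ x, ∑ y, u x * W A s m x y * u y = ∑ z, (∑ x, u x * W A s m x z) ^ 2 := by
    have h2 : ∀ x y, u x * W A s m x y * u y
        = ∑ z, (u x * W A s m x z) * (u y * W A s m y z) := by
      intro x y
      conv_lhs => rw [← W_mul_W h hs hm, Matrix.mul_apply]
      rw [Finset.mul_sum, Finset.sum_mul]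
      exact Finset.sum_congr rfl fun z _ => by rw [W_symm h z y]; ring
    simp_rw [h2, sq, Finset.sum_mul_sum]
    calc ∑ x, ∑ y, ∑ z, u x * W A s m x z * (u y * W A s m y z)
        = ∑ x, ∑ z, ∑ y, u x * W A s m x z * (u y * W A s m y z) :=
          Finset.sum_congr rfl fun x _ => Finset.sum_comm
      _ = ∑ z, ∑ x, ∑ y, u x * W A s m x z * (u y * W A s m y z) := Finset.sum_comm
  rw [h1]
  exact Finset.sum_nonneg fun z _ => sq_nonneg _

/-- Every point has a point not collinear with it. -/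
theorem exists_far (h : GQMat A s m) (hs : 1 ≤ s) (hm : 2 ≤ m) (p : V) :
    ∃ x, p ≠ x ∧ A p x = 0 := by
  by_contra hcon
  push Not at hcon
  have h1 : ∀ y, gf A p y = 0 := by
    intro y
    rcases gf_cases h p y with ⟨h0, _⟩ | ⟨_, h1, h2⟩
    · exact h0
    · exact absurd h2 (hcon y h1)
  have h2 : ∑ y, gf A p y = s ^ 2 * (m - 1) := by
    simp_rw [gf, Finset.sum_sub_distrib, sum_one, h.deg]
    simp only [Finset.sum_const, Finset.card_univ, nsmul_eq_mul]
    rw [card_eq h (by linarith) p]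
    ring
  simp_rw [h1, Finset.sum_const_zero] at h2
  have h3 : 0 < s ^ 2 * (m - 1) := by
    apply mul_pos
    · positivity
    · linarith
  linarith

/-- **Higman's bound** `t ≤ s^2`. -/
theorem higman (h : GQMat A s m) (hs : 1 < s) (hm : 2 ≤ m) (p : V) : m ≤ s ^ 2 + 1 := by
  obtain ⟨x, hpx, hpx'⟩ := exists_far h hs.le hm p
  have hs1 : s + 1 ≠ 0 := by linarith
  have hsm : 0 < s - 1 + m := by linarith
  set D : V → ℝ := fun y => A p y * A x y with hD
  have hA0 : ∀ y z, 0 ≤ A y z := by
    intro y z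
    rcases h.zero_one y z with h0 | h0 <;> rw [h0]
    norm_num
  have hDnn : ∀ y, 0 ≤ D y := fun y => mul_nonneg (hA0 _ _) (hA0 _ _)
  have hDp : ∀ y, A p y * D y = D y := by
    intro y
    simp only [hD]
    rcases h.zero_one p y with h0 | h0 <;> rw [h0] <;> ring
  have hDx : ∀ y, A x y * D y = D y := by
    intro y
    simp only [hD]
    rcases h.zero_one x y with h0 | h0 <;> rw [h0] <;> ring
  have hDsq : ∀ y, D y ^ 2 = D y := by
    intro y
    simp only [hD]
    rcases h.zero_one p y with h0 | h0 <;> rcases h.zero_one x y with h1 | h1 <;>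
      rw [h0, h1] <;> ring
  have hDsum : ∑ y, D y = m := by
    have h1 := h.sq p x
    rw [hpx', Matrix.one_apply_ne hpx] at h1
    have h2 : ∀ y, D y = A p y * A y x := fun y => by simp only [hD]; rw [h.symm x y]
    simp_rw [h2, h1]
    ring
  have hDp0 : D p = 0 := by simp only [hD]; rw [h.diag]; ring
  have hDx0 : D x = 0 := by simp only [hD]; rw [h.diag]; ring
  set u : V → ℝ := fun y => m * s * ((1 : Matrix V V ℝ) p y + (1 : Matrix V V ℝ) x y)
    + (s ^ 2 + 1) * D y with hu
  have hU1 : ∑ y, u y = 2 * m * s + (s ^ 2 + 1) * m := by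
    simp only [hu]
    simp_rw [Finset.sum_add_distrib, ← Finset.mul_sum, Finset.sum_add_distrib, sum_one, hDsum]
    ring
  have hu2 : ∀ y, u y ^ 2 = m ^ 2 * s ^ 2 * ((1 : Matrix V V ℝ) p y + (1 : Matrix V V ℝ) x y)
      + (s ^ 2 + 1) ^ 2 * D y := by
    intro y
    simp only [hu]
    by_cases h1 : p = y
    · subst h1
      rw [hDp0, Matrix.one_apply_eq, Matrix.one_apply_ne hpx.symm]
      ring
    · by_cases h2 : x = y
      · subst h2
        rw [hDx0, Matrix.one_apply_eq, Matrix.one_apply_ne hpx]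
        ring
      · rw [Matrix.one_apply_ne h1, Matrix.one_apply_ne h2]
        have := hDsq y
        linear_combination (s ^ 2 + 1) ^ 2 * this
  have hU2 : ∑ y, u y ^ 2 = 2 * m ^ 2 * s ^ 2 + (s ^ 2 + 1) ^ 2 * m := by
    simp_rw [hu2, Finset.sum_add_distrib, ← Finset.mul_sum, Finset.sum_add_distrib, sum_one,
      hDsum]
    ring
  set H : V → ℝ := fun y => ∑ z, A y z * D z with hH
  have hHnn : ∀ y, 0 ≤ H y := fun y =>
    Finset.sum_nonneg fun z _ => mul_nonneg (hA0 _ _) (hDnn _)
  have hHp : H p = m := by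
    simp only [hH]
    simp_rw [hDp, hDsum]
  have hHx : H x = m := by
    simp only [hH]
    simp_rw [hDx, hDsum]
  have hG : ∀ y, ∑ z, A y z * u z = m * s * (A y p + A y x) + (s ^ 2 + 1) * H y := by
    intro y
    have key : ∀ z, A y z * u z = m * s * ((1 : Matrix V V ℝ) p z * A y z
        + (1 : Matrix V V ℝ) x z * A y z) + (s ^ 2 + 1) * (A y z * D z) := by
      intro z
      simp only [hu]
      ring
    simp_rw [key, Finset.sum_add_distrib, ← Finset.mul_sum, Finset.sum_add_distrib,
      sum_one_mul]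
    simp only [hH]
  have hup : ∑ y, u y * A y p = (s ^ 2 + 1) * m := by
    have key : ∀ y, u y * A y p = m * s * ((1 : Matrix V V ℝ) p y * A y p
        + (1 : Matrix V V ℝ) x y * A y p) + (s ^ 2 + 1) * D y := by
      intro y
      have := hDp y
      simp only [hu]
      rw [h.symm p y] at this
      linear_combination (s ^ 2 + 1) * this
    simp_rw [key, Finset.sum_add_distrib, ← Finset.mul_sum, Finset.sum_add_distrib,
      sum_one_mul, hDsum]
    rw [h.diag, h.symm x p, hpx']
    ring
  have hux : ∑ y, u y * A y x = (s ^ 2 + 1) * m := by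
    have key : ∀ y, u y * A y x = m * s * ((1 : Matrix V V ℝ) p y * A y x
        + (1 : Matrix V V ℝ) x y * A y x) + (s ^ 2 + 1) * D y := by
      intro y
      have := hDx y
      simp only [hu]
      rw [h.symm x y] at this
      linear_combination (s ^ 2 + 1) * this
    simp_rw [key, Finset.sum_add_distrib, ← Finset.mul_sum, Finset.sum_add_distrib,
      sum_one_mul, hDsum]
    rw [h.diag, hpx']
    ring
  have huH : 2 * m ^ 2 * s ≤ ∑ y, u y * H y := by
    have h1 : ∑ y, m * s * ((1 : Matrix V V ℝ) p y * H y + (1 : Matrix V V ℝ) x y * H y)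
        ≤ ∑ y, u y * H y := by
      apply Finset.sum_le_sum
      intro y _
      simp only [hu]
      have h2 : 0 ≤ (s ^ 2 + 1) * D y * H y :=
        mul_nonneg (mul_nonneg (by positivity) (hDnn y)) (hHnn y)
      linarith
    rw [← Finset.mul_sum] at h1
    simp_rw [Finset.sum_add_distrib, sum_one_mul, hHp, hHx] at h1
    linarith
  have hUA : 4 * m ^ 2 * s * (s ^ 2 + 1) ≤ ∑ y, u y * ∑ z, A y z * u z := by
    have h1 : ∑ y, u y * ∑ z, A y z * u z
        = m * s * (∑ y, u y * A y p + ∑ y, u y * A y x) + (s ^ 2 + 1) * ∑ y, u y * H y := by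
      rw [← Finset.sum_add_distrib, Finset.mul_sum, Finset.mul_sum, ← Finset.sum_add_distrib]
      refine Finset.sum_congr rfl fun y _ => ?_
      rw [hG]
      ring
    rw [h1, hup, hux]
    have h2 : 0 < s ^ 2 + 1 := by positivity
    nlinarith
  have hq := quad_nonneg h hs.le (by linarith) u
  have e1 : ∑ y, ∑ z, u y * W A s m y z * u z
      = ((s - 1) * ∑ y, u y ^ 2 - ∑ y, u y * ∑ z, A y z * u z
        + 1 / (s + 1) * (∑ y, u y) ^ 2) / (s - 1 + m) := by
    have h1 : ∀ y, ∑ z, u y * W A s m y z * u z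
        = ((s - 1) * u y ^ 2 - u y * ∑ z, A y z * u z
          + 1 / (s + 1) * (u y * ∑ z, u z)) / (s - 1 + m) := by
      intro y
      have key : ∀ z, u y * W A s m y z * u z
          = ((s - 1) * u y * ((1 : Matrix V V ℝ) y z * u z) - u y * (A y z * u z)
            + 1 / (s + 1) * (u y * u z)) / (s - 1 + m) := by
        intro z
        rw [W_apply]
        ring
      simp_rw [key, ← Finset.sum_div, Finset.sum_add_distrib, Finset.sum_sub_distrib,
        ← Finset.mul_sum, sum_one_mul]
      ring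
    simp_rw [h1, ← Finset.sum_div, Finset.sum_add_distrib, Finset.sum_sub_distrib,
      ← Finset.mul_sum, ← Finset.sum_mul]
    ring
  rw [e1, hU1, hU2] at hq
  have h3 := mul_nonneg hq hsm.le
  rw [div_mul_cancel₀ _ hsm.ne'] at h3
  have h4 : 0 ≤ m * (s - 1) * (s ^ 2 + 1) * (s ^ 2 + 1 - m) := by
    have h5 : 1 / (s + 1) * (2 * m * s + (s ^ 2 + 1) * m) ^ 2 = m ^ 2 * (s + 1) ^ 3 := by
      field_simp
      ring
    rw [h5] at h3
    nlinarith
  have h6 : 0 < m * (s - 1) * (s ^ 2 + 1) := by
    have : 0 < s - 1 := by linarith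
    have : 0 < m := by linarith
    positivity
  have h7 := nonneg_of_mul_nonneg_right h4 h6
  linarith

end

end Pool.Agent.H58.GQ.Gen
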